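import Pool.Agent.W34.GB.Stm
import Pool.Agent.H336R2.HD.A1
import Pool.Agent.H336R2.HD.A3

/-!
# Project GZ: large primes (`Pbig`)
-/

open Polynomial Pool.Agent.H337R2 Pool.Agent.W34.GB

namespace Pool.Agent.W637.GZ

noncomputable section

set_option linter.unusedSectionVars false

variable {p : ℕ} [hp : Fact p.Prime]

lemma nadd {a b B : ℚ} (ha : padicNorm p a ≤ B) (hb : padicNorm p b ≤ B) : padicNorm p (a + b) ≤ B :=
  padicNorm.nonarchimedean.trans (max_le ha hb)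

lemma nsub {a b B : ℚ} (ha : padicNorm p a ≤ B) (hb : padicNorm p b ≤ B) : padicNorm p (a - b) ≤ B := by
  rw [sub_eq_add_neg]
  exact nadd ha (by rw [padicNorm.neg]; exact hb)

lemma nmul {a b B : ℚ} (ha : padicNorm p a ≤ 1) (hb : padicNorm p b ≤ B) : padicNorm p (a * b) ≤ B := by
  rw [padicNorm.mul]
  exact (mul_le_of_le_one_left (padicNorm.nonneg _) ha).trans hb

lemma nadd_lt {a b B : ℚ} (ha : padicNorm p a < B) (hb : padicNorm p b < B) : padicNorm p (a + b) < B :=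
  padicNorm.nonarchimedean.trans_lt (max_lt ha hb)

lemma nsub_lt {a b B : ℚ} (ha : padicNorm p a < B) (hb : padicNorm p b < B) : padicNorm p (a - b) < B := by
  rw [sub_eq_add_neg]
  exact nadd_lt ha (by rw [padicNorm.neg]; exact hb)

lemma nmul_lt {a b B : ℚ} (ha : padicNorm p a ≤ 1) (hb : padicNorm p b < B) : padicNorm p (a * b) < B := by
  rw [padicNorm.mul]
  exact (mul_le_of_le_one_left (padicNorm.nonneg _) ha).trans_lt hb

lemma nprod {ι : Type*} (s : Finset ι) (f : ι → ℚ) : padicNorm p (∏ i ∈ s, f i) = ∏ i ∈ s, padicNorm p (f i) := by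
  classical
  induction s using Finset.induction_on with
  | empty => simp
  | insert a s ha ih => rw [Finset.prod_insert ha, Finset.prod_insert ha, padicNorm.mul, ih]

lemma npow (a : ℚ) (n : ℕ) : padicNorm p (a ^ n) = padicNorm p a ^ n := by
  induction n with
  | zero => simp
  | succ m ih => rw [pow_succ, pow_succ, padicNorm.mul, ih]

lemma ninv (a : ℚ) : padicNorm p a⁻¹ = (padicNorm p a)⁻¹ := by
  have := padicNorm.div (p := p) 1 a
  rw [padicNorm.one, one_div, one_div] at this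
  exact this

/-- one exceptional term -/
lemma nsum_split (s : Finset ℕ) (f : ℕ → ℚ) (a : ℕ) (hf : ∀ j ∈ s, j ≠ a → padicNorm p (f j) ≤ 1) :
    padicNorm p (∑ j ∈ s, f j - if a ∈ s then f a else 0) ≤ 1 := by
  split_ifs with h
  · rw [← Finset.add_sum_erase s f h, add_sub_cancel_left]
    refine padicNorm.sum_le' (fun j hj => ?_) zero_le_one
    rw [Finset.mem_erase] at hj
    exact hf j hj.2 hj.1
  · rw [sub_zero]
    refine padicNorm.sum_le' (fun j hj => hf j hj ?_) zero_le_one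
    rintro rfl
    exact h hj

lemma p_not_dvd {m : ℕ} (h0 : 0 < m) (h : m < p) : padicNorm p (m : ℚ) = 1 :=
  (padicNorm.nat_eq_one_iff m).2 (fun hd => absurd (Nat.le_of_dvd h0 hd) (by omega))

lemma j0_spec {σ : ℕ} (hσ : σ = 1 ∨ σ = 3) (hp5 : 5 ≤ p) : 4 * j0 σ p + σ = mm σ p * p := by
  have h2 : p % 2 = 1 := by
    rcases hp.out.eq_two_or_odd with h | h
    · omega
    · exact h
  unfold j0 mm
  rcases hσ with rfl | rfl <;> split_ifs <;> omega

lemma quarter_norm {σ j : ℕ} (hσ : σ = 1 ∨ σ = 3) (hp5 : 5 ≤ p) (hne : j ≠ j0 σ p) (hj1 : j + 1 < p) :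
    padicNorm p ((j : ℚ) + (σ : ℚ) / 4) = 1 := by
  have h2 : p % 2 = 1 := by
    rcases hp.out.eq_two_or_odd with h | h
    · omega
    · exact h
  have hs := j0_spec hσ hp5
  have e : (j : ℚ) + (σ : ℚ) / 4 = ((4 * j + σ : ℕ) : ℚ) / ((4 : ℕ) : ℚ) := by push_cast; ring
  rw [e, padicNorm.div, p_not_dvd (p := p) (m := 4) (by norm_num) (by omega), div_one]
  rw [padicNorm.nat_eq_one_iff]
  rintro ⟨c, hc⟩
  have hc4 : c < 4 := by
    by_contra h
    have : p * 4 ≤ p * c := Nat.mul_le_mul_left p (by omega)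
    rcases hσ with rfl | rfl <;> omega
  unfold mm at hs
  interval_cases c <;> rcases hσ with rfl | rfl <;> split_ifs at hs <;> omega

lemma tau1_norm {σ : ℕ} (hσ : σ = 1 ∨ σ = 3) (hp5 : 5 ≤ p) :
    padicNorm p ((j0 σ p : ℚ) + (σ : ℚ) / 4) = (p : ℚ)⁻¹ := by
  have hs := j0_spec hσ hp5
  have e : (j0 σ p : ℚ) + (σ : ℚ) / 4 = ((mm σ p * p : ℕ) : ℚ) / ((4 : ℕ) : ℚ) := by
    rw [← hs]
    push_cast
    ring
  rw [e, padicNorm.div, p_not_dvd (p := p) (m := 4) (by norm_num) (by omega), div_one]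
  push_cast
  rw [padicNorm.mul, padicNorm.padicNorm_p hp.out.one_lt]
  have : padicNorm p ((mm σ p : ℕ) : ℚ) = 1 := by
    apply p_not_dvd
    · unfold mm; split_ifs <;> norm_num
    · unfold mm; split_ifs <;> omega
  rw [this, one_mul]

lemma half_norm {j : ℕ} (hp5 : 5 ≤ p) (hj : j < p) (hne : j ≠ (p - 1) / 2) :
    padicNorm p ((j : ℚ) + 1 / 2) = 1 := by
  have h2 : p % 2 = 1 := by
    rcases hp.out.eq_two_or_odd with h | h
    · omega
    · exact h
  have e : (j : ℚ) + 1 / 2 = ((2 * j + 1 : ℕ) : ℚ) / ((2 : ℕ) : ℚ) := by push_cast; ring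
  rw [e, padicNorm.div, p_not_dvd (p := p) (m := 2) (by norm_num) (by omega), div_one]
  rw [padicNorm.nat_eq_one_iff]
  rintro ⟨c, hc⟩
  have hc4 : c < 2 := by
    by_contra h
    have : p * 2 ≤ p * c := Nat.mul_le_mul_left p (by omega)
    omega
  interval_cases c <;> omega

lemma tau2_norm (hp5 : 5 ≤ p) : padicNorm p ((((p - 1) / 2 : ℕ) : ℚ) + 1 / 2) = (p : ℚ)⁻¹ := by
  have h2 : p % 2 = 1 := by
    rcases hp.out.eq_two_or_odd with h | h
    · omega
    · exact h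
  have e : (((p - 1) / 2 : ℕ) : ℚ) + 1 / 2 = ((p : ℕ) : ℚ) / ((2 : ℕ) : ℚ) := by
    have h3 : 2 * ((p - 1) / 2) + 1 = p := by omega
    have h4 : (2 : ℚ) * (((p - 1) / 2 : ℕ) : ℚ) + 1 = (p : ℚ) := by exact_mod_cast h3
    rw [← h4]
    push_cast
    ring
  rw [e, padicNorm.div, p_not_dvd (p := p) (m := 2) (by norm_num) (by omega), div_one,
    padicNorm.padicNorm_p hp.out.one_lt]

lemma int_norm {j : ℕ} (hj0 : 1 ≤ j) (hj : j < 2 * p) (hne : j ≠ p) : padicNorm p (j : ℚ) = 1 := by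
  rw [padicNorm.nat_eq_one_iff]
  rintro ⟨c, hc⟩
  have hc4 : c < 2 := by
    by_contra h
    have : p * 2 ≤ p * c := Nat.mul_le_mul_left p (by omega)
    omega
  interval_cases c <;> omega

/-- the singular pairs -/
def Sg (σ p K k : ℕ) (τ : ℚ) : Prop :=
  (j0 σ p < k ∧ τ = (j0 σ p : ℚ) + (σ : ℚ) / 4) ∨ ((p - 1) / 2 < k ∧ τ = (((p - 1) / 2 : ℕ) : ℚ) + 1 / 2) ∨
    (p < k + K ∧ τ = p)

lemma Sg_norm {σ K k : ℕ} {τ : ℚ} (hσ : σ = 1 ∨ σ = 3) (hp5 : 5 ≤ p) (h : Sg σ p K k τ) :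
    padicNorm p τ = (p : ℚ)⁻¹ := by
  rcases h with ⟨_, rfl⟩ | ⟨_, rfl⟩ | ⟨_, rfl⟩
  · exact tau1_norm hσ hp5
  · exact tau2_norm hp5
  · exact padicNorm.padicNorm_p hp.out.one_lt

/-- the singular parts of the partial sums -/
def D1 (σ p k q : ℕ) : ℚ := if j0 σ p < k then (q : ℚ) else 0
/-- the singular parts of the partial sums -/
def D2 (p k q : ℕ) (w : ℚ) : ℚ := if (p - 1) / 2 < k then (q : ℚ) * w else 0
/-- the singular parts of the partial sums -/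
def D3 (p K k q : ℕ) (w : ℚ) : ℚ := if p < k + K then (q : ℚ) * (1 + w) else 0

lemma fw_split {σ K k q : ℕ} {w : ℚ} (hσ : σ = 1 ∨ σ = 3) (hp5 : 5 ≤ p) (hk : k < p) (hK : k + K < 2 * p)
    (hw : padicNorm p ((q : ℚ) * w) ≤ 1) (i : ℕ) :
    padicNorm p ((q : ℚ) * fw σ K w i k - (D1 σ p k q / ((j0 σ p : ℚ) + (σ : ℚ) / 4) ^ i +
      D2 p k q w / ((((p - 1) / 2 : ℕ) : ℚ) + 1 / 2) ^ i - D3 p K k q w / (p : ℚ) ^ i)) ≤ 1 := by
  have hq : padicNorm p (q : ℚ) ≤ 1 := padicNorm.of_nat q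
  have hw1 : padicNorm p ((q : ℚ) * (1 + w)) ≤ 1 := by
    rw [mul_add, mul_one]
    exact nadd hq hw
  have h1 := nsum_split (p := p) (Finset.range k) (fun j => 1 / ((j : ℚ) + (σ : ℚ) / 4) ^ i) (j0 σ p)
    (fun j hj hne => by
      rw [Finset.mem_range] at hj
      rw [one_div, ninv, npow, quarter_norm hσ hp5 hne (by omega), one_pow, inv_one])
  have h2 := nsum_split (p := p) (Finset.range k) (fun j => 1 / ((j : ℚ) + 1 / 2) ^ i) ((p - 1) / 2)
    (fun j hj hne => by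
      rw [Finset.mem_range] at hj
      rw [one_div, ninv, npow, half_norm hp5 (by omega) hne, one_pow, inv_one])
  have h3 := nsum_split (p := p) (Finset.Ico 1 (k + K)) (fun j => 1 / (j : ℚ) ^ i) p
    (fun j hj hne => by
      rw [Finset.mem_Ico] at hj
      rw [one_div, ninv, npow, int_norm (by omega) (by omega) hne, one_pow, inv_one])
  have e : (q : ℚ) * fw σ K w i k - (D1 σ p k q / ((j0 σ p : ℚ) + (σ : ℚ) / 4) ^ i +
      D2 p k q w / ((((p - 1) / 2 : ℕ) : ℚ) + 1 / 2) ^ i - D3 p K k q w / (p : ℚ) ^ i) =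
      (q : ℚ) * (∑ j ∈ Finset.range k, 1 / ((j : ℚ) + (σ : ℚ) / 4) ^ i -
        if j0 σ p ∈ Finset.range k then 1 / ((j0 σ p : ℚ) + (σ : ℚ) / 4) ^ i else 0) +
      ((q : ℚ) * w) * (∑ j ∈ Finset.range k, 1 / ((j : ℚ) + 1 / 2) ^ i -
        if (p - 1) / 2 ∈ Finset.range k then 1 / ((((p - 1) / 2 : ℕ) : ℚ) + 1 / 2) ^ i else 0) -
      ((q : ℚ) * (1 + w)) * (∑ j ∈ Finset.Ico 1 (k + K), 1 / (j : ℚ) ^ i -
        if p ∈ Finset.Ico 1 (k + K) then 1 / (p : ℚ) ^ i else 0) := by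
    unfold fw D1 D2 D3
    have c1 : (j0 σ p ∈ Finset.range k) = (j0 σ p < k) := by rw [Finset.mem_range]
    have c2 : ((p - 1) / 2 ∈ Finset.range k) = ((p - 1) / 2 < k) := by rw [Finset.mem_range]
    have c3 : (p ∈ Finset.Ico 1 (k + K)) = (p < k + K) := by
      rw [Finset.mem_Ico]
      apply propext
      constructor
      · exact fun h => h.2
      · exact fun h => ⟨by omega, h⟩
    simp only [c1, c2, c3]
    split_ifs <;> ring
  rw [e]
  exact nsub (nadd (nmul hq h1) (nmul hw h2)) (nmul hw1 h3)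

/-- partial fractions at a rational point -/
lemma Rv_point (h : ℕ) (P : ℚ[X]) (hdeg : P.natDegree < 6 * h) (c : ℚ) (hc : ∀ m ∈ sN h, c + (m : ℚ) ≠ 0) :
    P.eval c * ∏ m ∈ sN h, ((c + m)⁻¹) ^ 3 =
      ∑ k ∈ sN h, (pa (sN h) m3 P k 1 / (c + k) + pa (sN h) m3 P k 2 / (c + k) ^ 2 +
        pa (sN h) m3 P k 3 / (c + k) ^ 3) := by
  have hd : P.degree < (QQ (sN h) m3).degree := by
    rw [Polynomial.degree_eq_natDegree (QQ_monic _ _).ne_zero, QQ_natDegree]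
    have : ∑ m ∈ sN h, m3 m = 6 * h := by
      unfold m3 sN
      rw [Finset.sum_const, Nat.card_Icc]
      simp
      ring
    rw [this]
    exact lt_of_le_of_lt Polynomial.degree_le_natDegree (by exact_mod_cast hdeg)
  have h1 := coeff_RS (sN h) m3 P hd c hc 0
  have h2 : PowerSeries.coeff 0 (RS (sN h) m3 P c) = P.eval c * ∏ m ∈ sN h, ((c + m)⁻¹) ^ 3 := by
    unfold RS VV
    rw [PowerSeries.coeff_zero_eq_constantCoeff_apply, map_mul, map_prod]
    congr 1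
    · have h : (PowerSeries.constantCoeff).comp (TS c) = Polynomial.evalRingHom c := by
        apply Polynomial.ringHom_ext
        · intro a
          simp [TS_C]
        · simp [TS_X]
      have := congrArg (fun f : ℚ[X] →+* ℚ => f P) h
      simpa using this
    · apply Finset.prod_congr rfl
      intro m _
      rw [map_pow]
      unfold m3
      congr 1
      rw [← PowerSeries.coeff_zero_eq_constantCoeff_apply]
      simp [iv]
  rw [← h2, h1]
  apply Finset.sum_congr rfl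
  intro k _
  unfold pa m3
  simp [Finset.sum_range_succ]
  ring

lemma diff_norm {h m k : ℕ} (hp2 : 2 * h < p) (hm : m ∈ sN h) (hk : k ∈ sN h) (hne : m ≠ k) :
    padicNorm p ((m : ℚ) - k) = 1 := by
  unfold sN at hm hk
  rw [Finset.mem_Icc] at hm hk
  have h2 : ¬ (p : ℤ) ∣ (m : ℤ) - k := by
    intro hd
    have : (m : ℤ) - k = 0 := by
      apply Int.eq_zero_of_abs_lt_dvd hd
      rw [abs_lt]
      constructor <;> omega
    omega
  have := (padicNorm.int_eq_one_iff (p := p) ((m : ℤ) - k)).2 h2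
  push_cast at this
  exact this

lemma pa_norm {h k : ℕ} (hp2 : 2 * h < p) (hk : k ∈ sN h) (P : ℚ[X]) (hP : PB p 1 1 (TS (-(k : ℚ)) P)) (i : ℕ) :
    padicNorm p (pa (sN h) m3 P k i) ≤ 1 := by
  unfold pa
  split_ifs
  · have h1 := pfc_bound (sN h) m3 P k 1 1 (fun _ => (1 : ℚ)) zero_le_one zero_le_one hP (fun m hm _ => ?_)
      (fun m _ => zero_le_one) (m3 k - i)
    · simpa using h1
    · rw [Finset.mem_erase] at hm
      rw [diff_norm hp2 hm.2 hk hm.1, inv_one]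
      exact ⟨le_rfl, le_rfl⟩
  · simp

/-- the singular value -/
def SS (h : ℕ) (P : ℚ[X]) (k : ℕ) (τ : ℚ) : ℚ :=
  pa (sN h) m3 P k 1 / τ + pa (sN h) m3 P k 2 / τ ^ 2 + pa (sN h) m3 P k 3 / τ ^ 3

lemma SS_norm {h k : ℕ} (hp2 : 2 * h < p) (hk : k ∈ sN h) (P : ℚ[X]) (hdeg : P.natDegree < 6 * h)
    (hP : ∀ k ∈ sN h, PB p 1 1 (TS (-(k : ℚ)) P)) {τ : ℚ} (hτ : padicNorm p τ = (p : ℚ)⁻¹) :
    padicNorm p (SS h P k τ) ≤ max 1 ((p : ℚ) ^ 3 * padicNorm p (P.eval (τ - k))) := by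
  have hp1 : (1 : ℚ) < p := by exact_mod_cast hp.out.one_lt
  have hp0 : (0 : ℚ) < p := by linarith
  have hτ0 : τ ≠ 0 := by
    rintro rfl
    rw [padicNorm.zero] at hτ
    have : (0 : ℚ) < (p : ℚ)⁻¹ := by positivity
    linarith
  have hother : ∀ m ∈ sN h, m ≠ k → padicNorm p (τ - k + m) = 1 := by
    intro m hm hne
    have h1 := diff_norm hp2 hm hk hne
    have h2 : padicNorm p τ ≠ padicNorm p ((m : ℚ) - k) := by
      rw [h1, hτ]
      exact (inv_lt_one_of_one_lt₀ hp1).ne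
    have e : τ - k + m = τ + ((m : ℚ) - k) := by ring
    rw [e, padicNorm.add_eq_max_of_ne h2, h1, hτ]
    exact max_eq_right (inv_lt_one_of_one_lt₀ hp1).le
  have hc : ∀ m ∈ sN h, τ - k + (m : ℚ) ≠ 0 := by
    intro m hm h0
    by_cases hmk : m = k
    · rw [hmk] at h0
      apply hτ0
      linarith
    · have := hother m hm hmk
      rw [h0, padicNorm.zero] at this
      exact zero_ne_one this
  have h1 := Rv_point h P hdeg (τ - k) hc
  rw [← Finset.add_sum_erase (sN h) _ hk, ← Finset.mul_prod_erase (sN h) _ hk] at h1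
  have e1 : τ - (k : ℚ) + k = τ := by ring
  rw [e1] at h1
  have e2 : SS h P k τ = P.eval (τ - k) * (τ⁻¹ ^ 3 * ∏ m ∈ (sN h).erase k, ((τ - k + m)⁻¹) ^ 3) -
      ∑ m ∈ (sN h).erase k, (pa (sN h) m3 P m 1 / (τ - k + m) + pa (sN h) m3 P m 2 / (τ - k + m) ^ 2 +
        pa (sN h) m3 P m 3 / (τ - k + m) ^ 3) := by
    unfold SS
    rw [h1]
    ring
  rw [e2]
  refine nsub ?_ ?_
  · refine le_trans (le_of_eq ?_) (le_max_right _ _)
    rw [padicNorm.mul, padicNorm.mul, npow, ninv, hτ, inv_inv, nprod]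
    have h3 : ∏ m ∈ (sN h).erase k, padicNorm p ((τ - k + m)⁻¹ ^ 3) = 1 := by
      apply Finset.prod_eq_one
      intro m hm
      rw [Finset.mem_erase] at hm
      rw [npow, ninv, hother m hm.2 hm.1]
      norm_num
    rw [h3]
    ring
  · refine le_trans ?_ (le_max_left _ _)
    refine padicNorm.sum_le' (fun m hm => ?_) zero_le_one
    rw [Finset.mem_erase] at hm
    have h4 := hother m hm.2 hm.1
    have h5 : ∀ i : ℕ, padicNorm p (pa (sN h) m3 P m i / (τ - k + m) ^ i) ≤ 1 := by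
      intro i
      rw [padicNorm.div, npow, h4, one_pow, div_one]
      exact pa_norm hp2 hm.2 P (hP m hm.2) i
    have h51 := h5 1
    rw [pow_one] at h51
    exact nadd (nadd h51 (h5 2)) (h5 3)

/-- entries -/
lemma entry {h σ q : ℕ} {w u v : ℚ} (hσ : σ = 1 ∨ σ = 3) (hU : UInt q w u v) (hp5 : 5 ≤ p)
    (hp2 : 2 * h < p) (P : ℚ[X]) (hdeg : P.natDegree < 6 * h)
    (hP : ∀ k ∈ sN h, PB p 1 1 (TS (-(k : ℚ)) P)) {B : ℚ} (hB : 1 < B)
    (hS : ∀ k ∈ sN h, ∀ τ, Sg σ p (Pool.Agent.W34.GB.KK h) k τ → (p : ℚ) ^ 3 * padicNorm p (P.eval (τ - k)) < B) :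
    padicNorm p ((q : ℚ) * NL h σ w u v P) < B := by
  obtain ⟨_, ⟨zw, hzw⟩, ⟨zu, hzu⟩, ⟨zv, hzv⟩⟩ := hU
  have hw : padicNorm p ((q : ℚ) * w) ≤ 1 := by rw [hzw]; exact padicNorm.of_int zw
  have hu : padicNorm p ((q : ℚ) * u) ≤ 1 := by rw [hzu]; exact padicNorm.of_int zu
  have hv : padicNorm p ((q : ℚ) * v) ≤ 1 := by rw [hzv]; exact padicNorm.of_int zv
  have hq : padicNorm p (q : ℚ) ≤ 1 := padicNorm.of_nat q
  have hw1 : padicNorm p ((q : ℚ) * (1 + w)) ≤ 1 := by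
    rw [mul_add, mul_one]
    exact nadd hq hw
  rw [NL_apply]
  unfold xf
  rw [Finset.mul_sum]
  refine padicNorm.sum_lt' (fun k hk => ?_) (by linarith)
  have hk' := hk
  unfold sN at hk'
  rw [Finset.mem_Icc] at hk'
  have hKK : Pool.Agent.W34.GB.KK h ≤ h := by unfold Pool.Agent.W34.GB.KK; omega
  have hf := fw_split (p := p) (K := Pool.Agent.W34.GB.KK h) (k := k) hσ hp5 (by omega) (by omega) hw
  have hpa := pa_norm hp2 hk P (hP k hk)
  have hSS : ∀ τ, Sg σ p (Pool.Agent.W34.GB.KK h) k τ → padicNorm p (SS h P k τ) < B := fun τ hτ =>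
    (SS_norm hp2 hk P hdeg hP (Sg_norm hσ hp5 hτ)).trans_lt (max_lt hB (hS k hk τ hτ))
  have e : (q : ℚ) * (pa (sN h) m3 P k 3 * (v - fw σ (Pool.Agent.W34.GB.KK h) w 3 k) +
      pa (sN h) m3 P k 2 * (u - fw σ (Pool.Agent.W34.GB.KK h) w 2 k) - pa (sN h) m3 P k 1 * fw σ (Pool.Agent.W34.GB.KK h) w 1 k) =
      (pa (sN h) m3 P k 3 * ((q : ℚ) * v) + pa (sN h) m3 P k 2 * ((q : ℚ) * u)) -
      (pa (sN h) m3 P k 3 * ((q : ℚ) * fw σ (Pool.Agent.W34.GB.KK h) w 3 k - (D1 σ p k q / ((j0 σ p : ℚ) + (σ : ℚ) / 4) ^ 3 +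
      D2 p k q w / ((((p - 1) / 2 : ℕ) : ℚ) + 1 / 2) ^ 3 - D3 p (Pool.Agent.W34.GB.KK h) k q w / (p : ℚ) ^ 3)) +
      pa (sN h) m3 P k 2 * ((q : ℚ) * fw σ (Pool.Agent.W34.GB.KK h) w 2 k - (D1 σ p k q / ((j0 σ p : ℚ) + (σ : ℚ) / 4) ^ 2 +
      D2 p k q w / ((((p - 1) / 2 : ℕ) : ℚ) + 1 / 2) ^ 2 - D3 p (Pool.Agent.W34.GB.KK h) k q w / (p : ℚ) ^ 2)) +
      pa (sN h) m3 P k 1 * ((q : ℚ) * fw σ (Pool.Agent.W34.GB.KK h) w 1 k - (D1 σ p k q / ((j0 σ p : ℚ) + (σ : ℚ) / 4) ^ 1 +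
      D2 p k q w / ((((p - 1) / 2 : ℕ) : ℚ) + 1 / 2) ^ 1 - D3 p (Pool.Agent.W34.GB.KK h) k q w / (p : ℚ) ^ 1))) -
      (D1 σ p k q * SS h P k ((j0 σ p : ℚ) + (σ : ℚ) / 4) +
        D2 p k q w * SS h P k ((((p - 1) / 2 : ℕ) : ℚ) + 1 / 2) - D3 p (Pool.Agent.W34.GB.KK h) k q w * SS h P k p) := by
    unfold SS
    ring
  rw [e]
  refine nsub_lt (nsub_lt (nadd_lt ?_ ?_) (nadd_lt (nadd_lt ?_ ?_) ?_)) (nsub_lt (nadd_lt ?_ ?_) ?_)
  · exact (nmul (hpa 3) hv).trans_lt hB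
  · exact (nmul (hpa 2) hu).trans_lt hB
  · exact (nmul (hpa 3) (hf 3)).trans_lt hB
  · exact (nmul (hpa 2) (hf 2)).trans_lt hB
  · exact (nmul (hpa 1) (hf 1)).trans_lt hB
  · unfold D1
    split_ifs with hc
    · exact nmul_lt hq (hSS _ (Or.inl ⟨hc, rfl⟩))
    · rw [zero_mul, padicNorm.zero]; linarith
  · unfold D2
    split_ifs with hc
    · exact nmul_lt hw (hSS _ (Or.inr (Or.inl ⟨hc, rfl⟩)))
    · rw [zero_mul, padicNorm.zero]; linarith
  · unfold D3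
    split_ifs with hc
    · exact nmul_lt hw1 (hSS _ (Or.inr (Or.inr ⟨hc, rfl⟩)))
    · rw [zero_mul, padicNorm.zero]; linarith

/-- the node with the smaller threshold -/
def tmin (σ p : ℕ) : ℚ :=
  if j0 σ p ≤ (p - 1) / 2 then (j0 σ p : ℚ) + (σ : ℚ) / 4 else (((p - 1) / 2 : ℕ) : ℚ) + 1 / 2
/-- the node with the larger threshold -/
def tmax (σ p : ℕ) : ℚ :=
  if j0 σ p ≤ (p - 1) / 2 then (((p - 1) / 2 : ℕ) : ℚ) + 1 / 2 else (j0 σ p : ℚ) + (σ : ℚ) / 4

/-- roots -/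
def ci (h σ p i : ℕ) : ℚ :=
  if i < 2 * h - t1 σ p then tmin σ p - (t1 σ p + 1 + i : ℕ)
  else if i < (2 * h - t1 σ p) + (2 * h - t2 σ p) then
    tmax σ p - (t2 σ p + 1 + (i - (2 * h - t1 σ p)) : ℕ) else 0

lemma tmin_norm {σ : ℕ} (hσ : σ = 1 ∨ σ = 3) (hp5 : 5 ≤ p) : padicNorm p (tmin σ p) = (p : ℚ)⁻¹ := by
  unfold tmin
  split_ifs
  · exact tau1_norm hσ hp5
  · exact tau2_norm hp5

lemma tmax_norm {σ : ℕ} (hσ : σ = 1 ∨ σ = 3) (hp5 : 5 ≤ p) : padicNorm p (tmax σ p) = (p : ℚ)⁻¹ := by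
  unfold tmax
  split_ifs
  · exact tau2_norm hp5
  · exact tau1_norm hσ hp5

lemma pinv_le : ((p : ℚ)⁻¹) ≤ 1 := by
  have hp1 : (1 : ℚ) < p := by exact_mod_cast hp.out.one_lt
  exact (inv_lt_one_of_one_lt₀ hp1).le

lemma ci_norm {σ : ℕ} (hσ : σ = 1 ∨ σ = 3) (hp5 : 5 ≤ p) (h i : ℕ) : padicNorm p (ci h σ p i) ≤ 1 := by
  unfold ci
  split_ifs
  · exact nsub ((tmin_norm hσ hp5).trans_le pinv_le) (padicNorm.of_nat _)
  · exact nsub ((tmax_norm hσ hp5).trans_le pinv_le) (padicNorm.of_nat _)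
  · simp

/-- the basis -/
def bp (h σ p a : ℕ) : ℚ[X] := ∏ i ∈ Finset.range a, (X - C (ci h σ p i))

lemma bp_monic (h σ p a : ℕ) : (bp h σ p a).Monic ∧ (bp h σ p a).natDegree = a := by
  unfold bp
  constructor
  · exact Polynomial.monic_prod_of_monic _ _ fun i _ => Polynomial.monic_X_sub_C _
  · rw [Polynomial.natDegree_prod_of_monic _ _ fun i _ => Polynomial.monic_X_sub_C _]
    simp

lemma bp_PB {σ : ℕ} (hσ : σ = 1 ∨ σ = 3) (hp5 : 5 ≤ p) (h a k : ℕ) :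
    PB p 1 1 (TS (-(k : ℚ)) (bp h σ p a)) := by
  unfold bp
  rw [map_prod]
  have h1 := PB.prod (p := p) (ρ := 1) (Finset.range a) (fun _ => (1 : ℚ))
    (fun i => TS (-(k : ℚ)) (X - C (ci h σ p i))) zero_le_one (fun _ _ => zero_le_one) fun i _ => by
      have e : (X - C (ci h σ p i) : ℚ[X]) = X + C (-ci h σ p i) := by rw [C_neg, sub_eq_add_neg]
      rw [e, TS_lin]
      refine PB.linX zero_le_one zero_le_one ?_ (by norm_num)
      refine nadd ?_ ?_
      · rw [padicNorm.neg]; exact padicNorm.of_nat _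
      · rw [padicNorm.neg]; exact ci_norm hσ hp5 h i
  rwa [Finset.prod_const_one] at h1

/-- weights -/
def ww (h σ p a : ℕ) : ℕ :=
  if a < 2 * h - t1 σ p then 3 else if a < (2 * h - t1 σ p) + (2 * h - t2 σ p) then 1 else 0

lemma j0_lt {σ : ℕ} (hσ : σ = 1 ∨ σ = 3) : 4 * j0 σ p ≤ 3 * p := by
  unfold j0
  rcases hσ with rfl | rfl <;> split_ifs <;> omega

lemma Sg_t1 {h σ k : ℕ} {τ : ℚ} (hσ : σ = 1 ∨ σ = 3) (hp5 : 5 ≤ p) (hp2 : 2 * h < p)
    (hs : Sg σ p (Pool.Agent.W34.GB.KK h) k τ) : t1 σ p < k := by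
  have h0 := j0_lt (p := p) hσ
  have hK : 3 * Pool.Agent.W34.GB.KK h ≤ h := by unfold Pool.Agent.W34.GB.KK; omega
  unfold t1
  rcases hs with ⟨h1, _⟩ | ⟨h1, _⟩ | ⟨h1, _⟩ <;> omega

lemma Sg_t2 {h σ k : ℕ} {τ : ℚ} (hσ : σ = 1 ∨ σ = 3) (hp5 : 5 ≤ p) (hp2 : 2 * h < p)
    (hs : Sg σ p (Pool.Agent.W34.GB.KK h) k τ) (hk : k ≤ t2 σ p) : τ = tmin σ p := by
  have h0 := j0_lt (p := p) hσ
  have hK : 3 * Pool.Agent.W34.GB.KK h ≤ h := by unfold Pool.Agent.W34.GB.KK; omega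
  unfold t2 at hk
  unfold tmin
  rcases hs with ⟨h1, h2⟩ | ⟨h1, h2⟩ | ⟨h1, h2⟩
  · rw [if_pos (by omega), h2]
  · rw [if_neg (by omega), h2]
  · omega

lemma bp_eval (h σ p a : ℕ) (x : ℚ) : (bp h σ p a).eval x = ∏ i ∈ Finset.range a, (x - ci h σ p i) := by
  unfold bp
  rw [Polynomial.eval_prod]
  simp

lemma claim {h σ k a : ℕ} {τ : ℚ} (hσ : σ = 1 ∨ σ = 3) (hp5 : 5 ≤ p) (hp2 : 2 * h < p)
    (hk : k ∈ sN h) (hs : Sg σ p (Pool.Agent.W34.GB.KK h) k τ) :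
    (p : ℚ) ^ 3 * padicNorm p ((bp h σ p a).eval (τ - k)) ^ 2 ≤ (p : ℚ) ^ ww h σ p a := by
  have hp1 : (1 : ℚ) < p := by exact_mod_cast hp.out.one_lt
  have hp0 : (0 : ℚ) < p := by linarith
  have hτ := Sg_norm (p := p) hσ hp5 hs
  unfold sN at hk
  rw [Finset.mem_Icc] at hk
  have ht1 := Sg_t1 (p := p) hσ hp5 hp2 hs
  have hν : ∀ i, padicNorm p (τ - k - ci h σ p i) ≤ 1 := fun i =>
    nsub (nsub (hτ.trans_le pinv_le) (padicNorm.of_nat _)) (ci_norm hσ hp5 h i)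
  have hf1 : padicNorm p (τ - k - ci h σ p (k - t1 σ p - 1)) ≤ (p : ℚ)⁻¹ := by
    unfold ci
    rw [if_pos (by omega)]
    have e : ((t1 σ p + 1 + (k - t1 σ p - 1) : ℕ) : ℚ) = k := by
      congr 1
      omega
    rw [e]
    have e2 : τ - k - (tmin σ p - k) = τ - tmin σ p := by ring
    rw [e2]
    exact nsub hτ.le (tmin_norm hσ hp5).le
  rw [bp_eval, nprod]
  unfold ww
  split_ifs with c1 c2
  · have h1 : ∏ i ∈ Finset.range a, padicNorm p (τ - k - ci h σ p i) ≤ 1 :=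
      Finset.prod_le_one (fun i _ => padicNorm.nonneg _) fun i _ => hν i
    have h0 : 0 ≤ ∏ i ∈ Finset.range a, padicNorm p (τ - k - ci h σ p i) :=
      Finset.prod_nonneg fun i _ => padicNorm.nonneg _
    have h2 : (∏ i ∈ Finset.range a, padicNorm p (τ - k - ci h σ p i)) ^ 2 ≤ 1 := pow_le_one₀ h0 h1
    calc _ ≤ (p : ℚ) ^ 3 * 1 := mul_le_mul_of_nonneg_left h2 (by positivity)
      _ = _ := mul_one _
  · have hi1 : k - t1 σ p - 1 ∈ Finset.range a := by rw [Finset.mem_range]; omega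
    rw [← Finset.mul_prod_erase _ _ hi1]
    have h1 : ∏ i ∈ (Finset.range a).erase (k - t1 σ p - 1), padicNorm p (τ - k - ci h σ p i) ≤ 1 :=
      Finset.prod_le_one (fun i _ => padicNorm.nonneg _) fun i _ => hν i
    have h0 : 0 ≤ ∏ i ∈ (Finset.range a).erase (k - t1 σ p - 1), padicNorm p (τ - k - ci h σ p i) :=
      Finset.prod_nonneg fun i _ => padicNorm.nonneg _
    have h2 : padicNorm p (τ - k - ci h σ p (k - t1 σ p - 1)) *
      ∏ i ∈ (Finset.range a).erase (k - t1 σ p - 1), padicNorm p (τ - k - ci h σ p i) ≤ (p : ℚ)⁻¹ * 1 :=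
      mul_le_mul hf1 h1 h0 (by positivity)
    have h3 := pow_le_pow_left₀ (mul_nonneg (padicNorm.nonneg _) h0) h2 2
    calc _ ≤ (p : ℚ) ^ 3 * ((p : ℚ)⁻¹ * 1) ^ 2 := mul_le_mul_of_nonneg_left h3 (by positivity)
      _ = _ := by field_simp
  · have hi1 : k - t1 σ p - 1 ∈ Finset.range a := by rw [Finset.mem_range]; omega
    rw [← Finset.mul_prod_erase _ _ hi1]
    by_cases hk2 : k ≤ t2 σ p
    · have h3 := Sg_t2 (p := p) hσ hp5 hp2 hs hk2
      have h4 : τ - k - ci h σ p (k - t1 σ p - 1) = 0 := by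
        unfold ci
        rw [if_pos (by omega)]
        have e : ((t1 σ p + 1 + (k - t1 σ p - 1) : ℕ) : ℚ) = k := by
          congr 1
          omega
        rw [e, h3]
        ring
      rw [h4, padicNorm.zero]
      simp
    · have hi2 : (2 * h - t1 σ p) + (k - t2 σ p - 1) ∈ (Finset.range a).erase (k - t1 σ p - 1) := by
        rw [Finset.mem_erase, Finset.mem_range]
        omega
      rw [← Finset.mul_prod_erase _ _ hi2]
      have hf2 : padicNorm p (τ - k - ci h σ p ((2 * h - t1 σ p) + (k - t2 σ p - 1))) ≤ (p : ℚ)⁻¹ := by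
        unfold ci
        rw [if_neg (by omega), if_pos (by omega)]
        have e : ((t2 σ p + 1 + ((2 * h - t1 σ p) + (k - t2 σ p - 1) - (2 * h - t1 σ p)) : ℕ) : ℚ) = k := by
          congr 1
          omega
        rw [e]
        have e2 : τ - k - (tmax σ p - k) = τ - tmax σ p := by ring
        rw [e2]
        exact nsub hτ.le (tmax_norm hσ hp5).le
      set E := ((Finset.range a).erase (k - t1 σ p - 1)).erase ((2 * h - t1 σ p) + (k - t2 σ p - 1))
      have h1 : ∏ i ∈ E, padicNorm p (τ - k - ci h σ p i) ≤ 1 :=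
        Finset.prod_le_one (fun i _ => padicNorm.nonneg _) fun i _ => hν i
      have h0 : 0 ≤ ∏ i ∈ E, padicNorm p (τ - k - ci h σ p i) :=
        Finset.prod_nonneg fun i _ => padicNorm.nonneg _
      have h2 : padicNorm p (τ - k - ci h σ p (k - t1 σ p - 1)) *
        (padicNorm p (τ - k - ci h σ p ((2 * h - t1 σ p) + (k - t2 σ p - 1))) *
        ∏ i ∈ E, padicNorm p (τ - k - ci h σ p i)) ≤ (p : ℚ)⁻¹ * ((p : ℚ)⁻¹ * 1) :=
        mul_le_mul hf1 (mul_le_mul hf2 h1 h0 (by positivity)) (mul_nonneg (padicNorm.nonneg _) h0) (by positivity)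
      have h3 := pow_le_pow_left₀ (mul_nonneg (padicNorm.nonneg _) (mul_nonneg (padicNorm.nonneg _) h0)) h2 2
      calc _ ≤ (p : ℚ) ^ 3 * ((p : ℚ)⁻¹ * ((p : ℚ)⁻¹ * 1)) ^ 2 := mul_le_mul_of_nonneg_left h3 (by positivity)
        _ = (p : ℚ)⁻¹ := by field_simp
        _ ≤ _ := by rw [pow_zero]; exact pinv_le

lemma sum_ww (h σ p : ℕ) : ∑ a ∈ Finset.range (3 * h), ww h σ p a ≤ EB h σ p := by
  have h1 : ∀ a, ww h σ p a = (if a < 2 * h - t1 σ p then 3 else 0) +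
      (if 2 * h - t1 σ p ≤ a ∧ a < (2 * h - t1 σ p) + (2 * h - t2 σ p) then 1 else 0) := by
    intro a
    unfold ww
    split_ifs <;> first | rfl | omega
  rw [Finset.sum_congr rfl fun a _ => h1 a, Finset.sum_add_distrib]
  unfold EB
  apply Nat.add_le_add
  · rw [← Finset.sum_filter, Finset.sum_const, smul_eq_mul, mul_comm]
    apply Nat.mul_le_mul_left
    calc _ ≤ (Finset.range (2 * h - t1 σ p)).card := by
          apply Finset.card_le_card
          intro a ha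
          rw [Finset.mem_filter] at ha
          exact Finset.mem_range.2 ha.2
      _ = _ := Finset.card_range _
  · rw [← Finset.sum_filter, Finset.sum_const, smul_eq_mul, mul_one]
    calc _ ≤ (Finset.Ico (2 * h - t1 σ p) ((2 * h - t1 σ p) + (2 * h - t2 σ p))).card := by
          apply Finset.card_le_card
          intro a ha
          rw [Finset.mem_filter] at ha
          exact Finset.mem_Ico.2 ha.2
      _ = _ := by rw [Nat.card_Ico]; omega

/-- large primes -/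
theorem Pbig_holds : Pbig := by
  intro h σ q p hp w u v hσ hU hh hp2
  have hp5 : 5 ≤ p := by omega
  have hp1 : (1 : ℚ) < p := by exact_mod_cast hp.out.one_lt
  have hp0 : (0 : ℚ) < p := by linarith
  have h1 := Pool.Agent.H336R2.HD.A1_det_monic (NL h σ w u v) (3 * h) (fun a => bp h σ p a)
    (fun a _ => bp_monic h σ p a)
  have h2 : (q : ℚ) ^ (3 * h) * DET h σ w u v =
      (Matrix.of fun i j : Fin (3 * h) => (q : ℚ) * NL h σ w u v (bp h σ p i * bp h σ p j)).det := by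
    unfold DET
    rw [← h1]
    have : (Matrix.of fun i j : Fin (3 * h) => (q : ℚ) * NL h σ w u v (bp h σ p i * bp h σ p j)) =
        (q : ℚ) • (Matrix.of fun i j : Fin (3 * h) => NL h σ w u v (bp h σ p i * bp h σ p j)) := by
      ext i j
      simp
    rw [this, Matrix.det_smul, Fintype.card_fin]
  rw [h2]
  have h3 := Pool.Agent.H336R2.HD.A3_padic_det p (3 * h)
    (Matrix.of fun i j : Fin (3 * h) => (q : ℚ) * NL h σ w u v (bp h σ p i * bp h σ p j))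
    (fun a => (p : ℚ) ^ ww h σ p a) (fun a => by positivity) (fun i j => ?_)
  · refine h3.trans ?_
    rw [Finset.prod_pow_eq_pow_sum]
    exact pow_le_pow_right₀ hp1.le (sum_ww h σ p)
  · rw [Matrix.of_apply]
    have hdeg : (bp h σ p i * bp h σ p j).natDegree < 6 * h := by
      rw [(bp_monic h σ p i).1.natDegree_mul (bp_monic h σ p j).1, (bp_monic h σ p i).2, (bp_monic h σ p j).2]
      omega
    have hPB : ∀ k ∈ sN h, PB p 1 1 (TS (-(k : ℚ)) (bp h σ p i * bp h σ p j)) := by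
      intro k _
      rw [map_mul]
      have := PB.mul zero_le_one zero_le_one zero_le_one (bp_PB (p := p) hσ hp5 h i k) (bp_PB (p := p) hσ hp5 h j k)
      rwa [one_mul] at this
    have hV1 : (1 : ℚ) ≤ (p : ℚ) ^ ww h σ p i * (p : ℚ) ^ ww h σ p j :=
      one_le_mul_of_one_le_of_one_le (one_le_pow₀ hp1.le) (one_le_pow₀ hp1.le)
    by_contra hcon
    rw [not_le] at hcon
    have hX0 := padicNorm.nonneg (p := p) ((q : ℚ) * NL h σ w u v (bp h σ p i * bp h σ p j))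
    have hX1 : 1 < padicNorm p ((q : ℚ) * NL h σ w u v (bp h σ p i * bp h σ p j)) := by
      nlinarith
    refine lt_irrefl _ (entry (p := p) (h := h) (σ := σ) (q := q) (w := w) (u := u) (v := v) hσ hU hp5 hp2
      (bp h σ p i * bp h σ p j) hdeg hPB hX1 fun k hk τ hs => ?_)
    have ci1 := claim (p := p) (a := i) hσ hp5 hp2 hk hs
    have cj1 := claim (p := p) (a := j) hσ hp5 hp2 hk hs
    rw [Polynomial.eval_mul, padicNorm.mul]
    refine lt_of_pow_lt_pow_left₀ 2 hX0 (lt_of_le_of_lt ?_ hcon)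
    calc _ = ((p : ℚ) ^ 3 * padicNorm p ((bp h σ p i).eval (τ - k)) ^ 2) *
          ((p : ℚ) ^ 3 * padicNorm p ((bp h σ p j).eval (τ - k)) ^ 2) := by ring
      _ ≤ _ := mul_le_mul ci1 cj1 (by positivity) (by positivity)

end

end Pool.Agent.W637.GZ
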